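import Pool.Agent.W79.BP.Defs

/-!
Project BP (MP_ce44ee_pr), part DRIFT: the drift follows from the two parts on the numbers of
cycles.
-/

namespace Pool.Agent.W828.BP.Drift

open scoped Classical
open Pool.Agent.W79.BP

variable {n : ℕ}

/-- the number of moved points -/
noncomputable def mv (σ : Equiv.Perm (Fin n)) : ℕ :=
  (Finset.univ.filter (fun x => σ x ≠ x)).card

theorem hh_le (σ : Equiv.Perm (Fin n)) : hh σ ≤ n * mv σ := by
  unfold hh mv
  refine (Finset.sum_le_card_nsmul _ _ n ?_).trans ?_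
  · intro x _
    exact (Finset.card_le_univ _).trans (by simp)
  · rw [smul_eq_mul, mul_comm]

theorem mv_le (σ : Equiv.Perm (Fin n)) : mv σ ≤ n := by
  unfold mv
  exact (Finset.card_le_univ _).trans (by simp)

theorem mv_pos {σ : Equiv.Perm (Fin n)} (h : σ ≠ 1) : 1 ≤ mv σ := by
  by_contra h0
  apply h
  have h1 : mv σ = 0 := by omega
  unfold mv at h1
  rw [Finset.card_eq_zero] at h1
  ext x
  have : x ∉ Finset.univ.filter (fun x => σ x ≠ x) := by rw [h1]; simp
  simp only [Finset.mem_filter, Finset.mem_univ, true_and, not_not] at this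
  simp [this]

theorem cy_fix {σ : Equiv.Perm (Fin n)} {x : Fin n} (h : σ x = x) : (cy σ x).card = 1 := by
  rw [Finset.card_eq_one]
  refine ⟨x, ?_⟩
  ext y
  simp only [cy, Finset.mem_filter, Finset.mem_univ, true_and, Finset.mem_singleton]
  constructor
  · rintro ⟨k, hk⟩
    rw [← hk]
    exact Equiv.Perm.zpow_apply_eq_self_of_apply_eq_self h k
  · rintro rfl
    exact Equiv.Perm.SameCycle.refl _ _

theorem cy_pos (σ : Equiv.Perm (Fin n)) (x : Fin n) : 1 ≤ (cy σ x).card := by
  apply Finset.card_pos.2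
  exact ⟨x, by simp [cy, Equiv.Perm.SameCycle.refl]⟩

theorem sum_cy (σ : Equiv.Perm (Fin n)) : ∑ x, ((cy σ x).card - 1) + mv σ = hh σ := by
  unfold hh mv
  rw [← Finset.sum_filter_add_sum_filter_not Finset.univ (fun x => σ x ≠ x)]
  have h2 : ∑ x ∈ Finset.univ.filter (fun x => ¬ σ x ≠ x), ((cy σ x).card - 1) = 0 := by
    apply Finset.sum_eq_zero
    intro x hx
    simp only [Finset.mem_filter, Finset.mem_univ, true_and, not_not] at hx
    simp [cy_fix hx]
  rw [h2, add_zero, Finset.card_eq_sum_ones, ← Finset.sum_add_distrib]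
  apply Finset.sum_congr rfl
  intro x _
  have := cy_pos σ x
  omega

theorem DD_le (β : SimpleGraph (Fin n)) : DD β ≤ n ^ 2 := by
  unfold DD
  refine (Finset.sum_le_card_nsmul _ _ n ?_).trans ?_
  · intro x _
    have : (ob β x).card ≤ n := (Finset.card_le_univ _).trans (by simp)
    omega
  · simp [sq]

theorem DD_good (σ : Equiv.Perm (Fin n)) (β : SimpleGraph (Fin n))
    (h : ¬ ∃ τ ∈ Au β, ∃ x, ¬ σ.SameCycle x (τ x)) : DD β ≤ ∑ x, ((cy σ x).card - 1) := by
  push Not at h
  unfold DD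
  apply Finset.sum_le_sum
  intro x _
  have : ob β x ⊆ cy σ x := by
    intro y hy
    simp only [ob, Finset.mem_filter, Finset.mem_univ, true_and] at hy
    obtain ⟨τ, hτ, rfl⟩ := hy
    simp only [cy, Finset.mem_filter, Finset.mem_univ, true_and]
    exact h τ hτ x
  have := Finset.card_le_card this
  omega

theorem main : S_A → S_B → S_DRIFT := by
  rintro ⟨nA, hA⟩ ⟨nB, hB⟩
  refine ⟨max (max nA nB) 2, ?_⟩
  intro n hn σ hσ
  have h1 : nA ≤ n := (le_max_left _ _).trans ((le_max_left _ _).trans hn)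
  have h2 : nB ≤ n := (le_max_right _ _).trans ((le_max_left _ _).trans hn)
  have h3 : 2 ≤ n := (le_max_right _ _).trans hn
  have hm := mv_pos hσ
  by_cases hc : (Cy σ).card < 160 * b n
  · have h4 := hB n h2 σ hc
    have h5 : hh σ ≤ n * n := (hh_le σ).trans (Nat.mul_le_mul_left _ (mv_le σ))
    calc 2 * n * ∑ β ∈ Fx σ, DD β + hh σ * (Fx σ).card
        ≤ 2 * n * ∑ β ∈ Fx σ, DD β + (n * n) * (Fx σ).card := by gcongr
      _ = n * (2 * ∑ β ∈ Fx σ, DD β + n * (Fx σ).card) := by ring
      _ ≤ n * (2 * hh σ * (Fx σ).card) := by gcongr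
      _ = 2 * n * hh σ * (Fx σ).card := by ring
  · push Not at hc
    have h4 := hA n h1 σ hc
    set bad := (Fx σ).filter (fun β => ∃ τ ∈ Au β, ∃ x, ¬ σ.SameCycle x (τ x)) with hbad
    set K := ∑ x, ((cy σ x).card - 1) with hK
    have h5 : ∑ β ∈ Fx σ, DD β ≤ K * (Fx σ).card + n ^ 2 * bad.card := by
      rw [← Finset.sum_filter_add_sum_filter_not (Fx σ)
        (fun β => ∃ τ ∈ Au β, ∃ x, ¬ σ.SameCycle x (τ x)), add_comm]
      refine add_le_add ?_ ?_
      · refine (Finset.sum_le_card_nsmul _ _ K ?_).trans ?_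
        · intro β hβ
          exact DD_good σ β (Finset.mem_filter.1 hβ).2
        · rw [smul_eq_mul, mul_comm]
          exact Nat.mul_le_mul_left _ (Finset.card_filter_le _ _)
      · refine (Finset.sum_le_card_nsmul _ _ (n ^ 2) ?_).trans ?_
        · intro β _
          exact DD_le β
        · rw [smul_eq_mul, mul_comm]
    have h6 : K + mv σ = hh σ := sum_cy σ
    have h7 := hh_le σ
    have h8 : 2 * n ^ 3 * bad.card ≤ (Fx σ).card := by
      calc 2 * n ^ 3 * bad.card ≤ n * n ^ 3 * bad.card := by gcongr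
        _ = bad.card * n ^ 4 := by ring
        _ ≤ (Fx σ).card := h4
    have h9 : (Fx σ).card ≤ n * mv σ * (Fx σ).card := by
      have : 1 ≤ n * mv σ := Nat.mul_pos (by omega) hm
      calc (Fx σ).card = 1 * (Fx σ).card := (one_mul _).symm
        _ ≤ n * mv σ * (Fx σ).card := Nat.mul_le_mul_right _ this
    calc 2 * n * ∑ β ∈ Fx σ, DD β + hh σ * (Fx σ).card
        ≤ 2 * n * (K * (Fx σ).card + n ^ 2 * bad.card) + n * mv σ * (Fx σ).card := by gcongr
      _ = 2 * n * K * (Fx σ).card + 2 * n ^ 3 * bad.card + n * mv σ * (Fx σ).card := by ring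
      _ ≤ 2 * n * K * (Fx σ).card + n * mv σ * (Fx σ).card + n * mv σ * (Fx σ).card := by
          have := h8.trans h9
          gcongr
      _ = 2 * n * (K + mv σ) * (Fx σ).card := by ring
      _ = 2 * n * hh σ * (Fx σ).card := by rw [h6]

end Pool.Agent.W828.BP.Drift
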